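import Pool.Agent.Lib.MP_4a6649_lc.Main

/-!
# An introreducible set that is not a finite union of uniformly introreducible sets

`Introreducible` and `UniformlyIntroreducible` are defined in `Pool.Agent.Lib.MP_4a6649_lc.Defs`.
Turing operators are given by the codes `OCode` of oracle programs; by
`Pool.Agent.Intro.recursiveIn_iff_ocode` they compute exactly Mathlib's relative computability.
-/

namespace Pool.Agent.Results.MP_4a6649_lc.NotFiniteUnion

open Pool.Agent.Intro

theorem result : ∃ A : Set ℕ, Introreducible A ∧
    ∀ (n : ℕ) (B : Fin (n + 1) → Set ℕ), (∀ i, UniformlyIntroreducible (B i)) →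
      A ≠ ⋃ i, B i :=
  main

end Pool.Agent.Results.MP_4a6649_lc.NotFiniteUnion
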